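import Pool.Agent.H89.CM4.Targets2

/-!
# Cauchy's formula on a disc, for a sum of squares
-/

set_option autoImplicit false

namespace Pool.Agent.H60.CM4

open Pool.Agent.H65.CM4 Pool.Agent.H89.CM4
open scoped Real
open MeasureTheory

/-- Cauchy's formula for the square of a holomorphic function. -/
theorem cauchy_sq (g : ℂ → ℂ) (a x : ℂ) (R : ℝ) (hR : 0 < R)
    (hg : ∀ z ∈ Metric.closedBall a (2 * R), DifferentiableAt ℂ g z) (hx : ‖x - a‖ ≤ R) :
    ‖g x‖ ^ 2 ≤ π⁻¹ * ∫ θ in (0 : ℝ)..(2 * π), ‖g (circleMap a (2 * R) θ)‖ ^ 2 := by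
  have h2R : (0 : ℝ) < 2 * R := by positivity
  have hd : DiffContOnCl ℂ (fun z => g z ^ 2) (Metric.ball a (2 * R)) := by
    apply DifferentiableOn.diffContOnCl
    intro z hz
    rw [closure_ball _ h2R.ne'] at hz
    exact ((hg z hz).pow 2).differentiableWithinAt
  have hxb : x ∈ Metric.ball a (2 * R) := by
    rw [mem_ball_iff_norm]
    linarith
  have hc := hd.circleIntegral_sub_inv_smul hxb
  have hmem : ∀ θ : ℝ, circleMap a (2 * R) θ ∈ Metric.closedBall a (2 * R) := fun θ =>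
    circleMap_mem_closedBall a h2R.le θ
  have hgc : Continuous fun θ : ℝ => g (circleMap a (2 * R) θ) := by
    rw [continuous_iff_continuousAt]
    intro θ
    exact (hg _ (hmem θ)).continuousAt.comp (continuous_circleMap a (2 * R)).continuousAt
  have hdist : ∀ θ : ℝ, R ≤ ‖circleMap a (2 * R) θ - x‖ := by
    intro θ
    have h1 : ‖circleMap a (2 * R) θ - a‖ = 2 * R := by
      simp [circleMap, abs_of_pos hR]
    have h2 : ‖circleMap a (2 * R) θ - a‖ ≤ ‖circleMap a (2 * R) θ - x‖ + ‖x - a‖ := by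
      have h3 : circleMap a (2 * R) θ - a = (circleMap a (2 * R) θ - x) + (x - a) := by ring
      rw [h3]
      exact norm_add_le _ _
    linarith
  have hne : ∀ θ : ℝ, circleMap a (2 * R) θ - x ≠ 0 := by
    intro θ h
    have h1 := hdist θ
    rw [h, norm_zero] at h1
    linarith
  have hci : Continuous fun θ : ℝ => deriv (circleMap a (2 * R)) θ •
      ((circleMap a (2 * R) θ - x)⁻¹ • g (circleMap a (2 * R) θ) ^ 2) := by
    simp only [deriv_circleMap, smul_eq_mul]
    refine Continuous.mul ?_ (Continuous.mul ?_ (hgc.pow 2))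
    · exact (continuous_circleMap 0 (2 * R)).mul continuous_const
    · exact ((continuous_circleMap a (2 * R)).sub continuous_const).inv₀ hne
  have hb : ‖∮ z in C(a, 2 * R), (z - x)⁻¹ • g z ^ 2‖ ≤
      ∫ θ in (0 : ℝ)..(2 * π), 2 * ‖g (circleMap a (2 * R) θ)‖ ^ 2 := by
    refine (intervalIntegral.norm_integral_le_integral_norm Real.two_pi_pos.le).trans ?_
    refine intervalIntegral.integral_mono_on Real.two_pi_pos.le
      (hci.norm.intervalIntegrable _ _)
      ((continuous_const.mul (hgc.norm.pow 2)).intervalIntegrable _ _) ?_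
    intro θ _
    rw [norm_smul, norm_smul, norm_inv, norm_pow, deriv_circleMap, norm_mul, Complex.norm_I,
      mul_one, norm_circleMap_zero, abs_of_pos h2R]
    have h1 : ‖circleMap a (2 * R) θ - x‖⁻¹ ≤ R⁻¹ := inv_anti₀ hR (hdist θ)
    have h2 : 0 ≤ ‖g (circleMap a (2 * R) θ)‖ ^ 2 := by positivity
    calc 2 * R * (‖circleMap a (2 * R) θ - x‖⁻¹ * ‖g (circleMap a (2 * R) θ)‖ ^ 2)
        ≤ 2 * R * (R⁻¹ * ‖g (circleMap a (2 * R) θ)‖ ^ 2) := by gcongr
      _ = 2 * ‖g (circleMap a (2 * R) θ)‖ ^ 2 := by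
          field_simp
  rw [hc, intervalIntegral.integral_const_mul, norm_smul, norm_pow] at hb
  have h3 : ‖(2 * (π : ℂ) * Complex.I)‖ = 2 * π := by
    simp [abs_of_pos Real.pi_pos]
  rw [h3] at hb
  have h4 : π * ‖g x‖ ^ 2 ≤ ∫ θ in (0 : ℝ)..(2 * π), ‖g (circleMap a (2 * R) θ)‖ ^ 2 := by
    linarith
  calc ‖g x‖ ^ 2 = π⁻¹ * (π * ‖g x‖ ^ 2) := by
        field_simp
    _ ≤ _ := by
        have := Real.pi_pos
        gcongr

theorem pf_CA1 : T_CA1 := by
  intro ι S f a R X z hR hd hz hX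
  have h2R : (0 : ℝ) < 2 * R := by positivity
  have hmem : ∀ θ : ℝ, ‖circleMap a (2 * R) θ - a‖ = 2 * R := fun θ => by
    simp [circleMap, abs_of_pos hR]
  have hX0 : 0 ≤ X := by
    have := hX (circleMap a (2 * R) 0) (hmem 0)
    exact (Finset.sum_nonneg (fun i _ => by positivity)).trans this
  have hcont : ∀ i ∈ S, Continuous fun θ : ℝ => ‖f i (circleMap a (2 * R) θ)‖ ^ 2 := by
    intro i hi
    refine Continuous.pow (Continuous.norm ?_) 2
    rw [continuous_iff_continuousAt]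
    intro θ
    exact (hd i hi _ (hmem θ).le).continuousAt.comp (continuous_circleMap a (2 * R)).continuousAt
  have h1 : ∑ i ∈ S, ‖f i (z i)‖ ^ 2 ≤
      ∑ i ∈ S, π⁻¹ * ∫ θ in (0 : ℝ)..(2 * π), ‖f i (circleMap a (2 * R) θ)‖ ^ 2 := by
    refine Finset.sum_le_sum fun i hi => ?_
    refine cauchy_sq (f i) a (z i) R hR (fun w hw => hd i hi w ?_) (hz i hi)
    rwa [mem_closedBall_iff_norm] at hw
  have h2 : ∑ i ∈ S, π⁻¹ * ∫ θ in (0 : ℝ)..(2 * π), ‖f i (circleMap a (2 * R) θ)‖ ^ 2 =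
      π⁻¹ * ∫ θ in (0 : ℝ)..(2 * π), ∑ i ∈ S, ‖f i (circleMap a (2 * R) θ)‖ ^ 2 := by
    rw [← Finset.mul_sum]
    congr 1
    rw [intervalIntegral.integral_finset_sum]
    intro i hi
    exact (hcont i hi).intervalIntegrable _ _
  have h3 : ∫ θ in (0 : ℝ)..(2 * π), ∑ i ∈ S, ‖f i (circleMap a (2 * R) θ)‖ ^ 2 ≤
      ∫ _ in (0 : ℝ)..(2 * π), X := by
    refine intervalIntegral.integral_mono_on Real.two_pi_pos.le
      ((continuous_finset_sum _ hcont).intervalIntegrable _ _)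
      (continuous_const.intervalIntegrable _ _) ?_
    intro θ _
    exact hX _ (hmem θ)
  rw [intervalIntegral.integral_const] at h3
  rw [h2] at h1
  have hpi := Real.pi_pos
  calc ∑ i ∈ S, ‖f i (z i)‖ ^ 2 ≤ π⁻¹ * ((2 * π - 0) • X) := by
        refine h1.trans ?_
        gcongr
    _ = 2 * X := by
        rw [smul_eq_mul]
        field_simp
        ring
    _ ≤ 4 * X := by linarith

end Pool.Agent.H60.CM4
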