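import Pool.Agent.H89.CM4.Targets2

/-!
# The representatives of the vectors modulo the units
-/

set_option autoImplicit false

open MeasureTheory Set Filter NumberField NumberField.InfinitePlace Pool.Agent.H65.CM4
  Pool.Agent.H89.CM4
open scoped Real

namespace Pool.Agent.H60.CM4

variable (k : Type) [Field k] [NumberField k] [IsTotallyReal k]

/-- the representative -/
noncomputable def rep (u : V2 k) : V2 k :=
  Quotient.out (Quotient.mk (MulAction.orbitRel (𝓞 k)ˣ (V2 k)) u)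

theorem rep_rel (u : V2 k) : ∃ e : (𝓞 k)ˣ, rep k u = (e : 𝓞 k) • u := by
  have h := Quotient.mk_out (s := MulAction.orbitRel (𝓞 k)ˣ (V2 k)) u
  rw [MulAction.orbitRel_apply] at h
  obtain ⟨e, he⟩ := h
  exact ⟨e, he.symm⟩

theorem rep_smul (e : (𝓞 k)ˣ) (u : V2 k) : rep k ((e : 𝓞 k) • u) = rep k u := by
  unfold rep
  congr 1
  apply Quotient.sound
  change MulAction.orbitRel (𝓞 k)ˣ (V2 k) _ _
  rw [MulAction.orbitRel_apply]
  exact ⟨e, rfl⟩

theorem smul_ne {e : (𝓞 k)ˣ} {u : V2 k} (hu : u ≠ 0) : (e : 𝓞 k) • u ≠ 0 := by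
  intro h
  apply hu
  have h1 : ((e⁻¹ : (𝓞 k)ˣ) : 𝓞 k) • ((e : 𝓞 k) • u) = u := by
    rw [smul_smul, Units.inv_mul, one_smul]
  rw [← h1, h, smul_zero]

theorem mem_Fo (u : V2 k) : u ∈ Fo k ↔ u ≠ 0 ∧ u = rep k u := Iff.rfl

theorem rep_mem {u : V2 k} (hu : u ≠ 0) : rep k u ∈ Fo k := by
  obtain ⟨e, he⟩ := rep_rel k u
  rw [mem_Fo]
  refine ⟨by rw [he]; exact smul_ne k hu, ?_⟩
  conv_rhs => rw [he]
  rw [rep_smul]

theorem pf_FOR : T_FOR k := by
  classical
  refine ⟨?_, ?_⟩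
  · intro u hu
    refine ⟨rep k u, ⟨rep_mem k hu, rep_rel k u⟩, ?_⟩
    rintro w ⟨hw, e, he⟩
    rw [mem_Fo] at hw
    rw [hw.2, he, rep_smul]
  · intro T M f hf
    have hrepM : ∀ (N : La k) (u : V2 k), u ∈ N → rep k u ∈ N := by
      intro N u hu
      obtain ⟨e, he⟩ := rep_rel k u
      rw [he]
      exact N.smul_mem _ hu
    have hT0 : ∀ (T : V2 k ≃ₗ[𝓞 k] V2 k) (u : V2 k), u ≠ 0 → T u ≠ 0 := by
      intro T u hu h
      exact hu (T.map_eq_zero_iff.1 h)
    have hback : ∀ (T : V2 k ≃ₗ[𝓞 k] V2 k) (u : V2 k), u ∈ Fo k →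
        rep k (T.symm (rep k (T u))) = u := by
      intro T u hu
      obtain ⟨e, he⟩ := rep_rel k (T u)
      rw [he, map_smul, T.symm_apply_apply, rep_smul]
      exact ((mem_Fo k u).1 hu).2.symm
    let A : Set (V2 k) := {u | u ∈ M ∧ u ∈ Fo k}
    let B : Set (V2 k) := {u | u ∈ M.map (T : V2 k →ₗ[𝓞 k] V2 k) ∧ u ∈ Fo k}
    let E : A ≃ B :=
      { toFun := fun u => ⟨rep k (T u), hrepM _ _ (Submodule.mem_map_of_mem u.2.1),
          rep_mem k (hT0 T _ ((mem_Fo k _).1 u.2.2).1)⟩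
        invFun := fun u => ⟨rep k (T.symm u), hrepM _ _ (by
            obtain ⟨w, hw, hw'⟩ := u.2.1
            have : (u : V2 k) = T w := hw'.symm
            rw [this, T.symm_apply_apply]
            exact hw), rep_mem k (hT0 T.symm _ ((mem_Fo k _).1 u.2.2).1)⟩
        left_inv := fun u => Subtype.ext (hback T u u.2.2)
        right_inv := fun u => Subtype.ext (by
          have := hback T.symm u u.2.2
          simpa using this) }
    have h1 : ∑' u : V2 k, (if u ∈ M ∧ u ∈ Fo k then f (T u) else 0) =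
        ∑' u : A, f (T u) := by
      rw [tsum_subtype A (fun u => f (T u))]
      refine tsum_congr fun u => ?_
      rw [Set.indicator_apply]
      rfl
    have h2 : ∑' u : V2 k, (if u ∈ M.map (T : V2 k →ₗ[𝓞 k] V2 k) ∧ u ∈ Fo k then f u else 0) =
        ∑' u : B, f u := by
      rw [tsum_subtype B f]
      refine tsum_congr fun u => ?_
      rw [Set.indicator_apply]
      rfl
    rw [h1, h2, ← E.tsum_eq]
    refine tsum_congr fun u => ?_
    obtain ⟨e, he⟩ := rep_rel k (T u)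
    change f (T u) = f (rep k (T u))
    rw [he, hf]

end Pool.Agent.H60.CM4
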