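import Pool.Agent.H89.CM4.Targets2

/-!
# The indicator function of the divisibility of the values of a form
-/

set_option autoImplicit false

open MeasureTheory Set Filter NumberField NumberField.InfinitePlace Pool.Agent.H65.CM4
  Pool.Agent.H89.CM4
open scoped Real

namespace Pool.Agent.H60.CM4

variable (k : Type) [Field k] [NumberField k] [IsTotallyReal k]

theorem nm_mul (I J : Ideal (𝓞 k)) : nm (I * J) = nm I * nm J := by
  unfold nm
  rw [map_mul]
  push_cast
  ring

theorem nm_pos {I : Ideal (𝓞 k)} (hI : I ≠ ⊥) : 0 < nm I := by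
  unfold nm
  have : Ideal.absNorm I ≠ 0 := by
    rw [Ne, Ideal.absNorm_eq_zero_iff]
    exact hI
  exact_mod_cast Nat.pos_of_ne_zero this

theorem mem_dv (hIDC : T_IDC k) {I : Ideal (𝓞 k)} (hI : I ≠ ⊥) (J : Ideal (𝓞 k)) :
    J ∈ dv I ↔ J ∣ I := by
  classical
  unfold dv
  rw [Finset.mem_filter, hIDC.1]
  constructor
  · rintro ⟨-, h⟩
    exact h
  · intro h
    refine ⟨⟨?_, ?_⟩, h⟩
    · rintro rfl
      exact hI (zero_dvd_iff.1 h)
    · obtain ⟨K, hK⟩ := h
      have hK0 : K ≠ ⊥ := by
        rintro rfl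
        apply hI
        rw [hK]
        exact mul_zero J
      have hJ0 : J ≠ ⊥ := by
        rintro rfl
        apply hI
        rw [hK]
        exact zero_mul K
      have h1 : (1 : ℝ) ≤ nm K := by
        unfold nm
        have : Ideal.absNorm K ≠ 0 := by
          rw [Ne, Ideal.absNorm_eq_zero_iff]
          exact hK0
        exact_mod_cast Nat.one_le_iff_ne_zero.2 this
      rw [hK, nm_mul]
      nlinarith [nm_pos k hJ0]

theorem pf_mul {p J : Ideal (𝓞 k)} (hp : Prime p) (hJ : J ≠ ⊥) :
    pf (p * J) = insert p (pf J) := by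
  classical
  unfold pf
  rw [UniqueFactorizationMonoid.normalizedFactors_mul hp.ne_zero hJ,
    UniqueFactorizationMonoid.normalizedFactors_irreducible hp.irreducible, normalize_eq]
  ext P
  simp

theorem notMem_pf {p J : Ideal (𝓞 k)} (h : ¬ p ∣ J) : p ∉ pf J := by
  classical
  unfold pf
  rw [Multiset.mem_toFinset]
  intro h1
  exact h (UniqueFactorizationMonoid.dvd_of_mem_normalizedFactors h1)

theorem Rn_mul {p J : Ideal (𝓞 k)} (hp : Prime p) (hJ : J ≠ ⊥) (h : ¬ p ∣ J) (L : La k)
    (Q : QF k) [Decidable (Dv p L Q)] :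
    Rn (p * J) L Q = (if Dv p L Q then nm p - 1 else -1) * Rn J L Q := by
  classical
  unfold Rn
  rw [pf_mul k hp hJ, Finset.prod_insert (notMem_pf k h)]
  congr 1
  split_ifs <;> rfl

theorem sum_Rn (hIDC : T_IDC k) (L : La k) (Q : QF k) (I : Ideal (𝓞 k)) :
    I ≠ ⊥ → Squarefree I → ∀ [Decidable (Dv I L Q)],
    ∑ J ∈ dv I, Rn J L Q = if Dv I L Q then nm I else 0 := by
  classical
  induction I using UniqueFactorizationMonoid.induction_on_prime with
  | h₁ => intro h; exact absurd rfl h
  | h₂ x hx =>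
    intro hx0 _ _
    have hx1 : x = 1 := by
      rw [Ideal.isUnit_iff] at hx
      rw [hx]
      exact Ideal.one_eq_top.symm
    subst hx1
    have hd : dv (1 : Ideal (𝓞 k)) = {1} := by
      ext J
      rw [mem_dv k hIDC hx0, Finset.mem_singleton]
      constructor
      · intro h
        have := isUnit_of_dvd_one h
        rw [Ideal.isUnit_iff] at this
        rw [this]
        exact Ideal.one_eq_top.symm
      · rintro rfl
        exact dvd_rfl
    rw [hd, Finset.sum_singleton]
    have hD : Dv (1 : Ideal (𝓞 k)) L Q := by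
      intro u _
      rw [Ideal.one_eq_top]
      trivial
    rw [if_pos hD]
    have h1 : pf (1 : Ideal (𝓞 k)) = ∅ := by
      unfold pf
      rw [UniqueFactorizationMonoid.normalizedFactors_one]
      rfl
    unfold Rn
    rw [h1, Finset.prod_empty]
    unfold nm
    simp
  | h₃ a p ha hp ih =>
    intro h0 hsq _
    have ha' : a ≠ ⊥ := ha
    have hpa : ¬ p ∣ a := by
      intro h
      obtain ⟨c, hc⟩ := h
      have := hsq p ⟨c, by rw [hc]; ring⟩
      exact hp.not_unit this
    have hsa : Squarefree a := hsq.squarefree_of_dvd (Dvd.intro_left p rfl)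
    have ih' := ih ha' hsa
    have hJ0 : ∀ J ∈ dv a, J ≠ ⊥ := by
      intro J hJ h
      rw [mem_dv k hIDC ha'] at hJ
      rw [h] at hJ
      exact ha' (zero_dvd_iff.1 hJ)
    have hJp : ∀ J ∈ dv a, ¬ p ∣ J := by
      intro J hJ h
      rw [mem_dv k hIDC ha'] at hJ
      exact hpa (h.trans hJ)
    have hinj : Set.InjOn (fun J => p * J) (dv a : Set (Ideal (𝓞 k))) := by
      intro J _ J' _ h
      exact mul_left_cancel₀ hp.ne_zero h
    have hdv : dv (p * a) = dv a ∪ (dv a).image (fun J => p * J) := by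
      ext J
      rw [mem_dv k hIDC h0, Finset.mem_union, Finset.mem_image, mem_dv k hIDC ha']
      constructor
      · intro h
        by_cases hpJ : p ∣ J
        · right
          obtain ⟨J', rfl⟩ := hpJ
          refine ⟨J', ?_, rfl⟩
          rw [mem_dv k hIDC ha']
          exact (mul_dvd_mul_iff_left hp.ne_zero).1 h
        · left
          have hJ : J ≠ 0 := by
            rintro rfl
            exact h0 (zero_dvd_iff.1 h)
          refine UniqueFactorizationMonoid.dvd_of_dvd_mul_right_of_no_prime_factors hJ ?_ h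
          intro d hdJ hdp hd
          have : Associated d p := (hd.dvd_prime_iff_associated hp).1 hdp
          exact hpJ (this.symm.dvd.trans hdJ)
      · rintro (h | ⟨J', h, rfl⟩)
        · exact h.trans (Dvd.intro_left p rfl)
        · rw [mem_dv k hIDC ha'] at h
          exact mul_dvd_mul_left p h
    have hdisj : Disjoint (dv a) ((dv a).image (fun J => p * J)) := by
      rw [Finset.disjoint_left]
      intro J hJ hJ'
      rw [Finset.mem_image] at hJ'
      obtain ⟨J', _, rfl⟩ := hJ'
      exact hJp _ hJ (Dvd.intro J' rfl)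
    rw [hdv, Finset.sum_union hdisj, Finset.sum_image hinj]
    have h2 : ∑ J ∈ dv a, Rn (p * J) L Q =
        (if Dv p L Q then nm p - 1 else -1) * ∑ J ∈ dv a, Rn J L Q := by
      rw [Finset.mul_sum]
      exact Finset.sum_congr rfl fun J hJ => Rn_mul k hp (hJ0 J hJ) (hJp J hJ) L Q
    rw [h2, ih']
    have hcop : IsCoprime p a := by
      rw [Ideal.isCoprime_iff_sup_eq]
      have hpm : p.IsMaximal := by
        have : p.IsPrime := (Ideal.prime_iff_isPrime hp.ne_zero).1 hp
        exact this.isMaximal hp.ne_zero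
      by_contra hne
      have h3 : p ⊔ a = p := by
        have := hpm.eq_of_le hne le_sup_left
        exact this.symm
      exact hpa (Ideal.dvd_iff_le.2 (by rw [← h3]; exact le_sup_right))
    have hD : Dv (p * a) L Q ↔ Dv p L Q ∧ Dv a L Q := by
      unfold Dv
      rw [← Ideal.inf_eq_mul_of_isCoprime hcop]
      simp only [Ideal.mem_inf]
      exact ⟨fun h => ⟨fun u hu => (h u hu).1, fun u hu => (h u hu).2⟩,
        fun h u hu => ⟨h.1 u hu, h.2 u hu⟩⟩
    by_cases hDp : Dv p L Q <;> by_cases hDa : Dv a L Q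
    · rw [if_pos (hD.2 ⟨hDp, hDa⟩), if_pos hDp, if_pos hDa, nm_mul]
      ring
    · rw [if_neg (fun h => hDa (hD.1 h).2), if_neg hDa]
      ring
    · rw [if_neg (fun h => hDp (hD.1 h).1), if_neg hDp]
      ring
    · rw [if_neg (fun h => hDp (hD.1 h).1), if_neg hDp]
      ring

theorem pf_IND (hIDC : T_IDC k) : T_IND k := by
  intro I L Q hI hsq _
  classical
  rw [sum_Rn k hIDC L Q I hI hsq]
  have := nm_pos k hI
  split_ifs
  · field_simp
  · simp

end Pool.Agent.H60.CM4
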